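import Pool.Agent.W64.LcTAB.Def
namespace Pool.Agent.W64.LcTAB
open Pool.Agent.W945.Lc
theorem c_1_1 : loop1 (row 1) (row 1) (row 2) 64 = true := by decide +kernel
theorem c_1_2 : loop1 (row 1) (row 2) (row 3) 64 = true := by decide +kernel
theorem c_1_3 : loop1 (row 1) (row 3) (row 4) 64 = true := by decide +kernel
theorem c_1_4 : loop1 (row 1) (row 4) (row 5) 64 = true := by decide +kernel
theorem c_1_5 : loop1 (row 1) (row 5) (row 6) 64 = true := by decide +kernel
theorem c_1_6 : loop1 (row 1) (row 6) (row 7) 64 = true := by decide +kernel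
theorem c_1_7 : loop1 (row 1) (row 7) (row 8) 64 = true := by decide +kernel
theorem c_1_8 : loop1 (row 1) (row 8) (row 9) 64 = true := by decide +kernel
theorem c_1_9 : loop1 (row 1) (row 9) (row 10) 64 = true := by decide +kernel
theorem c_1_10 : loop1 (row 1) (row 10) (row 11) 64 = true := by decide +kernel
theorem c_1_11 : loop1 (row 1) (row 11) (row 12) 64 = true := by decide +kernel
theorem c_1_12 : loop1 (row 1) (row 12) (row 13) 64 = true := by decide +kernel
theorem c_2_2 : loop1 (row 2) (row 2) (row 4) 64 = true := by decide +kernel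
theorem c_2_3 : loop1 (row 2) (row 3) (row 5) 64 = true := by decide +kernel
theorem c_2_4 : loop1 (row 2) (row 4) (row 6) 64 = true := by decide +kernel
theorem c_2_5 : loop1 (row 2) (row 5) (row 7) 64 = true := by decide +kernel
theorem c_2_6 : loop1 (row 2) (row 6) (row 8) 64 = true := by decide +kernel
theorem c_2_7 : loop1 (row 2) (row 7) (row 9) 64 = true := by decide +kernel
theorem c_2_8 : loop1 (row 2) (row 8) (row 10) 64 = true := by decide +kernel
theorem c_2_9 : loop1 (row 2) (row 9) (row 11) 64 = true := by decide +kernel
theorem c_2_10 : loop1 (row 2) (row 10) (row 12) 64 = true := by decide +kernel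
theorem c_2_11 : loop1 (row 2) (row 11) (row 13) 64 = true := by decide +kernel
theorem c_2_12 : loop1 (row 2) (row 12) (row 14) 64 = true := by decide +kernel
theorem c_3_3 : loop1 (row 3) (row 3) (row 6) 64 = true := by decide +kernel
theorem c_3_4 : loop1 (row 3) (row 4) (row 7) 64 = true := by decide +kernel
theorem c_3_5 : loop1 (row 3) (row 5) (row 8) 64 = true := by decide +kernel
theorem c_3_6 : loop1 (row 3) (row 6) (row 9) 64 = true := by decide +kernel
theorem c_3_7 : loop1 (row 3) (row 7) (row 10) 64 = true := by decide +kernel
theorem c_3_8 : loop1 (row 3) (row 8) (row 11) 64 = true := by decide +kernel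
theorem c_3_9 : loop1 (row 3) (row 9) (row 12) 64 = true := by decide +kernel
theorem c_3_10 : loop1 (row 3) (row 10) (row 13) 64 = true := by decide +kernel
theorem c_3_11 : loop1 (row 3) (row 11) (row 14) 64 = true := by decide +kernel
theorem c_3_12 : loop1 (row 3) (row 12) (row 15) 64 = true := by decide +kernel
theorem c_4_4 : loop1 (row 4) (row 4) (row 8) 64 = true := by decide +kernel
theorem c_4_5 : loop1 (row 4) (row 5) (row 9) 64 = true := by decide +kernel
theorem c_4_6 : loop1 (row 4) (row 6) (row 10) 64 = true := by decide +kernel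
theorem c_4_7 : loop1 (row 4) (row 7) (row 11) 64 = true := by decide +kernel
theorem c_4_8 : loop1 (row 4) (row 8) (row 12) 64 = true := by decide +kernel
theorem c_4_9 : loop1 (row 4) (row 9) (row 13) 64 = true := by decide +kernel
theorem c_4_10 : loop1 (row 4) (row 10) (row 14) 64 = true := by decide +kernel
theorem c_4_11 : loop1 (row 4) (row 11) (row 15) 64 = true := by decide +kernel
theorem c_4_12 : loop1 (row 4) (row 12) (row 16) 64 = true := by decide +kernel
theorem c_5_5 : loop1 (row 5) (row 5) (row 10) 64 = true := by decide +kernel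
theorem c_5_6 : loop1 (row 5) (row 6) (row 11) 64 = true := by decide +kernel
theorem c_5_7 : loop1 (row 5) (row 7) (row 12) 64 = true := by decide +kernel
theorem c_5_8 : loop1 (row 5) (row 8) (row 13) 64 = true := by decide +kernel
theorem c_5_9 : loop1 (row 5) (row 9) (row 14) 64 = true := by decide +kernel
theorem c_5_10 : loop1 (row 5) (row 10) (row 15) 64 = true := by decide +kernel
theorem c_5_11 : loop1 (row 5) (row 11) (row 16) 64 = true := by decide +kernel
theorem c_5_12 : loop1 (row 5) (row 12) (row 17) 64 = true := by decide +kernel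
theorem c_6_6 : loop1 (row 6) (row 6) (row 12) 64 = true := by decide +kernel
theorem c_6_7 : loop1 (row 6) (row 7) (row 13) 64 = true := by decide +kernel
theorem c_6_8 : loop1 (row 6) (row 8) (row 14) 64 = true := by decide +kernel
theorem c_6_9 : loop1 (row 6) (row 9) (row 15) 64 = true := by decide +kernel
theorem c_6_10 : loop1 (row 6) (row 10) (row 16) 64 = true := by decide +kernel
theorem c_6_11 : loop1 (row 6) (row 11) (row 17) 64 = true := by decide +kernel
theorem c_6_12 : loop1 (row 6) (row 12) (row 18) 64 = true := by decide +kernel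
theorem c_7_7 : loop1 (row 7) (row 7) (row 14) 64 = true := by decide +kernel
theorem c_7_8 : loop1 (row 7) (row 8) (row 15) 64 = true := by decide +kernel
theorem c_7_9 : loop1 (row 7) (row 9) (row 16) 64 = true := by decide +kernel
theorem c_7_10 : loop1 (row 7) (row 10) (row 17) 64 = true := by decide +kernel
theorem c_7_11 : loop1 (row 7) (row 11) (row 18) 64 = true := by decide +kernel
theorem c_7_12 : loop1 (row 7) (row 12) (row 19) 64 = true := by decide +kernel
theorem c_8_8 : loop1 (row 8) (row 8) (row 16) 64 = true := by decide +kernel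
theorem c_8_9 : loop1 (row 8) (row 9) (row 17) 64 = true := by decide +kernel
theorem c_8_10 : loop1 (row 8) (row 10) (row 18) 64 = true := by decide +kernel
theorem c_8_11 : loop1 (row 8) (row 11) (row 19) 64 = true := by decide +kernel
theorem c_8_12 : loop1 (row 8) (row 12) (row 20) 64 = true := by decide +kernel
theorem c_9_9 : loop1 (row 9) (row 9) (row 18) 64 = true := by decide +kernel
theorem c_9_10 : loop1 (row 9) (row 10) (row 19) 64 = true := by decide +kernel
theorem c_9_11 : loop1 (row 9) (row 11) (row 20) 64 = true := by decide +kernel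
theorem c_9_12 : loop1 (row 9) (row 12) (row 21) 64 = true := by decide +kernel
theorem c_10_10 : loop1 (row 10) (row 10) (row 20) 64 = true := by decide +kernel
theorem c_10_11 : loop1 (row 10) (row 11) (row 21) 64 = true := by decide +kernel
theorem c_10_12 : loop1 (row 10) (row 12) (row 22) 64 = true := by decide +kernel
theorem c_11_11 : loop1 (row 11) (row 11) (row 22) 64 = true := by decide +kernel
theorem c_11_12 : loop1 (row 11) (row 12) (row 23) 64 = true := by decide +kernel
theorem c_12_12 : loop1 (row 12) (row 12) (row 24) 64 = true := by decide +kernel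
end Pool.Agent.W64.LcTAB
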