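import Pool.Agent.W945.Lc.Stm

namespace Pool.Agent.W64.LcTAB

def tb (r k : Nat) : Nat := Nat.land (Nat.shiftRight r (Nat.mul 16 k)) 65535

def c1 (t1 t2 k1 k2 t12 : Nat) : Bool :=
  Nat.ble (Nat.add (Nat.mul 64 t1) (Nat.mul (Nat.succ k1) t2)) (Nat.mul 64 t12) ||
  Nat.ble (Nat.add (Nat.mul 64 t2) (Nat.mul (Nat.succ k2) t1)) (Nat.mul 64 t12)

def ck (r12 t1 t2 k1 k2 k : Nat) : Bool :=
  Nat.ble (Nat.mul (Nat.succ k1) (Nat.succ k2)) (Nat.mul 64 k) || c1 t1 t2 k1 k2 (tb r12 k)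

def body (r1 r2 r12 k1 k2 : Nat) : Bool :=
  Nat.beq (tb r1 k1) 0 || Nat.beq (tb r2 k2) 0 ||
    (ck r12 (tb r1 k1) (tb r2 k2) k1 k2 (Nat.div (Nat.mul k1 k2) 64) &&
    (ck r12 (tb r1 k1) (tb r2 k2) k1 k2 (Nat.succ (Nat.div (Nat.mul k1 k2) 64)) &&
     ck r12 (tb r1 k1) (tb r2 k2) k1 k2 (Nat.succ (Nat.succ (Nat.div (Nat.mul k1 k2) 64)))))

def loop2 (r1 r2 r12 k1 : Nat) (n : Nat) : Bool :=
  Nat.rec true (fun k ih => body r1 r2 r12 k1 k && ih) n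

def loop1 (r1 r2 r12 : Nat) (n : Nat) : Bool :=
  Nat.rec true (fun k ih => loop2 r1 r2 r12 k 64 && ih) n

end Pool.Agent.W64.LcTAB
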